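import Pool.Agent.Lib_bac815.Main3

set_option autoImplicit false

namespace Pool.Agent.Results.MP_bac815_al.NoAlmostExtension

open Pool.Agent.Lib_bac815

/-- There are a cocompact lattice `Γ` in the simple Lie group `SL₃(ℝ)`, of real rank two, a complete
CAT(0) space `X` and an isometric action `ρ` of `Γ` on `X` such that the restriction of `ρ` to any
admissible subspace does not almost extend to `SL₃(ℝ)`. -/
theorem result : ∃ Γ : Subgroup (Matrix.SpecialLinearGroup (Fin 3) ℝ),
    DiscreteTopology Γ ∧ CompactSpace (Matrix.SpecialLinearGroup (Fin 3) ℝ ⧸ Γ) ∧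
    ∃ (X : Type) (_ : MetricSpace X), IsCompleteCAT0 X ∧ ∃ ρ : Γ →* (X ≃ᵢ X),
      ∀ Z : Set X, Admissible ρ Z → ¬ AlmostExtends ρ Z :=
  ⟨N 2, discrete_N2, compact_N2, main_SL3⟩

end Pool.Agent.Results.MP_bac815_al.NoAlmostExtension
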